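import Mathlib

/-!
The mean transform and the Aluthge transform of an invertible complex matrix commute exactly when the
matrix is normal.
-/

open scoped MatrixOrder ComplexOrder
open Matrix

namespace Pool.Agent.Results.MP_15115f_an.InvertibleMatrices

variable {n : Type*} [Fintype n] [DecidableEq n]

/-- The unitary factor `V = T |T|⁻¹` of the polar decomposition `T = V |T|` of an invertible matrix `T`,
where `|T| = (T* T)^(1/2)` is `CFC.abs T`. -/
noncomputable def polarFactor (T : Matrix n n ℂ) : Matrix n n ℂ := T * (CFC.abs T)⁻¹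

/-- The Aluthge transform `|T|^(1/2) V |T|^(1/2)` of an invertible matrix `T = V |T|`. -/
noncomputable def aluthge (T : Matrix n n ℂ) : Matrix n n ℂ :=
  CFC.sqrt (CFC.abs T) * polarFactor T * CFC.sqrt (CFC.abs T)

/-- The mean transform `(V |T| + |T| V) / 2` of an invertible matrix `T = V |T|`. -/
noncomputable def meanTransform (T : Matrix n n ℂ) : Matrix n n ℂ :=
  (1 / 2 : ℂ) • (polarFactor T * CFC.abs T + CFC.abs T * polarFactor T)

theorem abs_posDef {T : Matrix n n ℂ} (hT : IsUnit T) : (CFC.abs T).PosDef := by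
  have h0 : (CFC.abs T).PosSemidef := (CFC.abs_nonneg T).posSemidef
  rw [h0.posDef_iff_isUnit]
  have h : IsUnit (CFC.abs T * CFC.abs T) := by
    rw [CFC.abs_mul_abs T]; exact hT.star.mul hT
  rw [isUnit_iff_isUnit_det] at h ⊢
  rw [det_mul] at h
  exact isUnit_of_mul_isUnit_left h

omit [Fintype n] [DecidableEq n] in
theorem star_of_posDef {P : Matrix n n ℂ} (hP : P.PosDef) : star P = P := hP.isHermitian

theorem det_unit {P : Matrix n n ℂ} (hP : P.PosDef) : IsUnit P.det :=
  (isUnit_iff_isUnit_det _).1 hP.isUnit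

theorem polar_spec {T : Matrix n n ℂ} (hT : IsUnit T) :
    star (polarFactor T) * polarFactor T = 1 ∧ polarFactor T * star (polarFactor T) = 1 ∧
      polarFactor T * CFC.abs T = T := by
  have hP := abs_posDef hT
  have hPu := det_unit hP
  have hPs : star (CFC.abs T)⁻¹ = (CFC.abs T)⁻¹ := star_of_posDef hP.inv
  have h1 : star (polarFactor T) * polarFactor T = 1 := by
    unfold polarFactor
    rw [star_mul, hPs]
    calc (CFC.abs T)⁻¹ * star T * (T * (CFC.abs T)⁻¹)
        = (CFC.abs T)⁻¹ * (star T * T) * (CFC.abs T)⁻¹ := by simp only [mul_assoc]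
      _ = ((CFC.abs T)⁻¹ * CFC.abs T) * (CFC.abs T * (CFC.abs T)⁻¹) := by
          rw [← CFC.abs_mul_abs T]; simp only [mul_assoc]
      _ = 1 := by rw [nonsing_inv_mul _ hPu, mul_nonsing_inv _ hPu, mul_one]
  refine ⟨h1, mul_eq_one_comm.1 h1, ?_⟩
  unfold polarFactor
  rw [mul_assoc, nonsing_inv_mul _ hPu, mul_one]

theorem polar_unique {T V P : Matrix n n ℂ} (hV : star V * V = 1) (hP : P.PosDef)
    (hT : T = V * P) : CFC.abs T = P ∧ polarFactor T = V := by
  have h1 : CFC.abs T = P := by
    have h : P * P = star T * T := by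
      subst hT
      rw [star_mul, star_of_posDef hP]
      calc P * P = P * (star V * V) * P := by rw [hV, mul_one]
      _ = P * star V * (V * P) := by simp only [mul_assoc]
    exact CFC.sqrt_unique h hP.posSemidef.nonneg
  refine ⟨h1, ?_⟩
  unfold polarFactor
  rw [h1, hT, mul_assoc, mul_nonsing_inv _ (det_unit hP), mul_one]

theorem sqrt_spec {P : Matrix n n ℂ} (hP : P.PosDef) :
    (CFC.sqrt P).PosDef ∧ CFC.sqrt P * CFC.sqrt P = P := by
  have h1 : CFC.sqrt P * CFC.sqrt P = P := CFC.sqrt_mul_sqrt_self P hP.posSemidef.nonneg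
  refine ⟨?_, h1⟩
  have h0 : (CFC.sqrt P).PosSemidef := (CFC.sqrt_nonneg P).posSemidef
  rw [h0.posDef_iff_isUnit]
  have h := hP.isUnit
  rw [← h1] at h
  rw [isUnit_iff_isUnit_det] at h ⊢
  rw [det_mul] at h
  exact isUnit_of_mul_isUnit_left h

/-- conjugation of a positive definite matrix by a unitary matrix -/
theorem conj_posDef {P V : Matrix n n ℂ} (hP : P.PosDef) (hV : star V * V = 1) :
    (star V * P * V).PosDef := by
  have hu : IsUnit V := by
    have : IsUnit V.det := by
      have h := congrArg det hV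
      rw [det_mul, det_one] at h
      exact IsUnit.of_mul_eq_one_right _ h
    exact (isUnit_iff_isUnit_det _).2 this
  exact (Matrix.IsUnit.posDef_star_left_conjugate_iff hu).2 hP

theorem key_identity {P S V W Q X Xi R : Matrix n n ℂ} (hS : star S = S) (hSP : S * S = P)
    (hW : star W * W = 1) (hW' : W * star W = 1) (hQ : star Q = Q)
    (hD : S * V * S = W * Q) (hX : star X = X) (hXi : X * Xi = 1) (hXi' : Xi * X = 1)
    (hR : star R = R) (hRR : R * R = Xi) :
    (star (R * (X * S - star V * S * W)) * (R * (X * S - star V * S * W))).trace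
      = (X * P).trace + (Xi * (star V * P * V)).trace - 2 * Q.trace := by
  have e1 : star W * (S * V * S) = Q := by
    rw [hD, ← mul_assoc, hW, one_mul]
  have e2 : S * star V * S * W = Q := by
    have h := congrArg star e1
    rw [hQ, star_mul, star_mul, star_mul, star_star, hS] at h
    rw [← h]; simp only [mul_assoc]
  have eM : star (X * S - star V * S * W) = S * X - star W * (S * V) := by
    rw [star_sub, star_mul, star_mul, star_mul, star_star, hX, hS]
  have e : star (R * (X * S - star V * S * W)) * (R * (X * S - star V * S * W))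
      = S * X * S - Q - Q + star W * (S * V * Xi * star V * S) * W := by
    calc star (R * (X * S - star V * S * W)) * (R * (X * S - star V * S * W))
        = star (X * S - star V * S * W) * (R * R) * (X * S - star V * S * W) := by
          rw [star_mul, hR]; simp only [mul_assoc]
      _ = (S * X - star W * (S * V)) * Xi * (X * S - star V * S * W) := by rw [hRR, eM]
      _ = S * (X * Xi) * (X * S) - S * (X * Xi) * (star V * S * W)
            - star W * (S * V) * (Xi * X) * S + star W * (S * V * Xi * star V * S) * W := by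
          simp only [sub_mul, mul_sub, mul_assoc]; abel
      _ = S * X * S - S * star V * S * W - star W * (S * V * S)
            + star W * (S * V * Xi * star V * S) * W := by
          rw [hXi, hXi', mul_one, mul_one]; simp only [mul_assoc]
      _ = _ := by rw [e1, e2]
  have t1 : (S * X * S).trace = (X * P).trace := by
    rw [trace_mul_comm, ← mul_assoc, trace_mul_comm, hSP]
  have t2 : (star W * (S * V * Xi * star V * S) * W).trace = (Xi * (star V * P * V)).trace := by
    rw [trace_mul_comm, ← mul_assoc, hW', one_mul]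
    calc (S * V * Xi * star V * S).trace = ((S * V) * (Xi * star V * S)).trace := by
          simp only [mul_assoc]
      _ = ((Xi * star V * S) * (S * V)).trace := trace_mul_comm _ _
      _ = (Xi * (star V * P * V)).trace := by rw [← hSP]; simp only [mul_assoc]
  rw [e, trace_add, trace_sub, trace_sub, t1, t2]
  ring


/-- For positive definite `X` and `S V S = W Q` (polar decomposition),
`tr (X P) + tr (X⁻¹ V* P V) ≥ 2 tr Q` where `P = S²`, and equality forces `X P X = V* P V`. -/
theorem key_ineq {P S V W Q X : Matrix n n ℂ} (hS : S.PosDef) (hSP : S * S = P)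
    (hW : star W * W = 1) (hW' : W * star W = 1) (hQ : star Q = Q)
    (hD : S * V * S = W * Q) (hX : X.PosDef) :
    0 ≤ (X * P).trace + (X⁻¹ * (star V * P * V)).trace - 2 * Q.trace ∧
    ((X * P).trace + (X⁻¹ * (star V * P * V)).trace - 2 * Q.trace = 0 →
      X * P * X = star V * P * V) := by
  obtain ⟨hR, hRR⟩ := sqrt_spec hX.inv
  have hXu := det_unit hX
  have hid := key_identity (star_of_posDef hS) hSP hW hW' hQ hD (star_of_posDef hX)
    (mul_nonsing_inv _ hXu) (nonsing_inv_mul _ hXu) (star_of_posDef hR) hRR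
  refine ⟨?_, fun h0 => ?_⟩
  · rw [← hid]
    exact (posSemidef_conjTranspose_mul_self _).trace_nonneg
  · rw [← hid] at h0
    have h1 := trace_conjTranspose_mul_self_eq_zero_iff.1 h0
    have h2 : X * S - star V * S * W = 0 := by
      calc X * S - star V * S * W
          = ((CFC.sqrt X⁻¹)⁻¹ * CFC.sqrt X⁻¹) * (X * S - star V * S * W) := by
            rw [nonsing_inv_mul _ (det_unit hR), one_mul]
        _ = (CFC.sqrt X⁻¹)⁻¹ * (CFC.sqrt X⁻¹ * (X * S - star V * S * W)) := by
            rw [mul_assoc]
        _ = 0 := by rw [h1, mul_zero]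
    have h3 : X * S = star V * S * W := sub_eq_zero.1 h2
    calc X * P * X = (X * S) * star (X * S) := by
          rw [star_mul, star_of_posDef hS, star_of_posDef hX, ← hSP]; simp only [mul_assoc]
      _ = (star V * S * W) * star (star V * S * W) := by rw [h3]
      _ = star V * S * (W * star W) * S * V := by
          rw [star_mul, star_mul, star_star, star_of_posDef hS]; simp only [mul_assoc]
      _ = star V * P * V := by rw [hW', mul_one, ← hSP]; simp only [mul_assoc]

/-- polar decomposition of the mean transform of `V P` -/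
theorem mean_eq {T V P : Matrix n n ℂ} (hV' : V * star V = 1) (hPa : CFC.abs T = P)
    (hVp : polarFactor T = V) :
    meanTransform T = V * ((1 / 2 : ℂ) • (P + star V * P * V)) := by
  unfold meanTransform
  rw [hPa, hVp, mul_smul_comm, mul_add]
  congr 2
  calc P * V = (V * star V) * (P * V) := by rw [hV', one_mul]
    _ = V * (star V * P * V) := by simp only [mul_assoc]

omit [Fintype n] [DecidableEq n] in
theorem half_posDef {P P' : Matrix n n ℂ} (hP : P.PosDef) (hP' : P'.PosDef) :
    ((1 / 2 : ℂ) • (P + P')).PosDef := by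
  refine (hP.add_posSemidef hP'.posSemidef).smul ?_
  norm_num

theorem trace_conj {P V : Matrix n n ℂ} (hV' : V * star V = 1) :
    (star V * P * V).trace = P.trace := by
  rw [trace_mul_comm, ← mul_assoc, hV', one_mul]

theorem aluthge_isUnit {T : Matrix n n ℂ} (hT : IsUnit T) : IsUnit (aluthge T) := by
  obtain ⟨hV, hV', -⟩ := polar_spec hT
  have hS := (sqrt_spec (abs_posDef hT)).1.isUnit
  have hVu : IsUnit (polarFactor T) := ⟨⟨_, _, hV', hV⟩, rfl⟩
  exact (hS.mul hVu).mul hS

theorem mean_isUnit {T : Matrix n n ℂ} (hT : IsUnit T) : IsUnit (meanTransform T) := by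
  obtain ⟨hV, hV', -⟩ := polar_spec hT
  rw [mean_eq hV' rfl rfl]
  have hVu : IsUnit (polarFactor T) := ⟨⟨_, _, hV', hV⟩, rfl⟩
  exact hVu.mul (half_posDef (abs_posDef hT) (conj_posDef (abs_posDef hT) hV)).isUnit

theorem normal_of_commute {T : Matrix n n ℂ} (hT : IsUnit T)
    (h : meanTransform (aluthge T) = aluthge (meanTransform T)) : IsStarNormal T := by
  obtain ⟨hV, hV', hTV⟩ := polar_spec hT
  have hP := abs_posDef hT
  have hDu := aluthge_isUnit hT
  have hsq := CFC.abs_mul_abs T
  obtain ⟨hW, hW', hDW⟩ := polar_spec hDu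
  have hQ := abs_posDef hDu
  have hmD := mean_eq hW' (rfl : CFC.abs (aluthge T) = _) rfl
  have hmT := mean_eq hV' (rfl : CFC.abs T = _) rfl
  have hDdef : aluthge T = CFC.sqrt (CFC.abs T) * polarFactor T * CFC.sqrt (CFC.abs T) := rfl
  obtain ⟨hS, hSP⟩ := sqrt_spec hP
  generalize CFC.sqrt (CFC.abs T) = S at *
  generalize CFC.abs T = P at *
  generalize polarFactor T = V at *
  generalize CFC.abs (aluthge T) = Q at *
  generalize polarFactor (aluthge T) = W at *
  have hP1 := conj_posDef hP hV
  have hA := half_posDef hP hP1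
  obtain ⟨hMa, hMp⟩ := polar_unique hV hA hmT
  have hB := half_posDef hQ (conj_posDef hQ hW)
  have hZ : aluthge (meanTransform T)
      = CFC.sqrt ((1 / 2 : ℂ) • (P + star V * P * V)) * V
        * CFC.sqrt ((1 / 2 : ℂ) • (P + star V * P * V)) := by
    unfold aluthge
    rw [hMa, hMp]
  rw [hZ, hmD] at h
  obtain ⟨hSA, hSAA⟩ := sqrt_spec hA
  have hBtr : ((1 / 2 : ℂ) • (Q + star W * Q * W)).trace = Q.trace := by
    rw [trace_smul, trace_add, trace_conj hW', smul_eq_mul]; ring
  obtain ⟨A, hAd⟩ : ∃ A, A = (1 / 2 : ℂ) • (P + star V * P * V) := ⟨_, rfl⟩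
  rw [← hAd] at h hSA hSAA hA
  generalize CFC.sqrt A = SA at *
  generalize (1 / 2 : ℂ) • (Q + star W * Q * W) = B at *
  -- `h : W * B = SA * V * SA`
  have hSAu := det_unit hSA
  have hSAi : star SA⁻¹ = SA⁻¹ := star_of_posDef hSA.inv
  have hX : (SA⁻¹ * B * SA⁻¹).PosDef := by
    have h1 := (Matrix.IsUnit.posDef_star_left_conjugate_iff (x := B) hSA.inv.isUnit).2 hB
    rwa [hSAi] at h1
  have hBB : B * B = SA * (star V * A * V) * SA := by
    calc B * B = B * (star W * W) * B := by rw [hW, mul_one]
      _ = star (W * B) * (W * B) := by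
          rw [star_mul, star_of_posDef hB]; simp only [mul_assoc]
      _ = star (SA * V * SA) * (SA * V * SA) := by rw [h]
      _ = SA * (star V * (SA * SA) * V) * SA := by
          rw [star_mul, star_mul, star_of_posDef hSA]; simp only [mul_assoc]
      _ = SA * (star V * A * V) * SA := by rw [hSAA]
  have hXA : (SA⁻¹ * B * SA⁻¹) * A = SA⁻¹ * B * SA := by
    rw [← hSAA]
    calc SA⁻¹ * B * SA⁻¹ * (SA * SA) = SA⁻¹ * B * (SA⁻¹ * SA) * SA := by simp only [mul_assoc]
      _ = _ := by rw [nonsing_inv_mul _ hSAu, mul_one]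
  have hXAX : (SA⁻¹ * B * SA⁻¹) * A * (SA⁻¹ * B * SA⁻¹) = star V * A * V := by
    rw [hXA]
    calc SA⁻¹ * B * SA * (SA⁻¹ * B * SA⁻¹) = SA⁻¹ * B * (SA * SA⁻¹) * B * SA⁻¹ := by
          simp only [mul_assoc]
      _ = SA⁻¹ * (B * B) * SA⁻¹ := by rw [mul_nonsing_inv _ hSAu, mul_one]; simp only [mul_assoc]
      _ = (SA⁻¹ * SA) * (star V * A * V) * (SA * SA⁻¹) := by rw [hBB]; simp only [mul_assoc]
      _ = _ := by rw [nonsing_inv_mul _ hSAu, mul_nonsing_inv _ hSAu, one_mul, mul_one]
  have htr1 : ((SA⁻¹ * B * SA⁻¹) * A).trace = B.trace := by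
    rw [hXA, trace_mul_comm, ← mul_assoc, mul_nonsing_inv _ hSAu, one_mul]
  generalize SA⁻¹ * B * SA⁻¹ = X at *
  have hXu := det_unit hX
  have hXi : X * X⁻¹ = 1 := mul_nonsing_inv _ hXu
  have hXi' : X⁻¹ * X = 1 := nonsing_inv_mul _ hXu
  have htr2 : (X⁻¹ * (star V * A * V)).trace = B.trace := by
    rw [← hXAX, mul_assoc X A X, ← mul_assoc X⁻¹ X, hXi', one_mul, trace_mul_comm, htr1]
  have hY : (V * X * star V).PosDef := by
    have h1 := conj_posDef (V := star V) hX (by rw [star_star]; exact hV')
    rwa [star_star] at h1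
  have hYi : (V * X * star V)⁻¹ = V * X⁻¹ * star V := by
    apply inv_eq_right_inv
    calc V * X * star V * (V * X⁻¹ * star V) = V * X * (star V * V) * X⁻¹ * star V := by
          simp only [mul_assoc]
      _ = V * (X * X⁻¹) * star V := by rw [hV, mul_one]; simp only [mul_assoc]
      _ = 1 := by rw [hXi, mul_one, hV']
  have hDW' : S * V * S = W * Q := by rw [← hDdef, hDW]
  obtain ⟨hf, hf0⟩ := key_ineq hS hSP hW hW' (star_of_posDef hQ) hDW' hX
  obtain ⟨hg, hg0⟩ := key_ineq hS hSP hW hW' (star_of_posDef hQ) hDW' hY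
  rw [hYi] at hg hg0
  have hYP : (V * X * star V * P).trace = (X * (star V * P * V)).trace := by
    calc (V * X * star V * P).trace = (V * (X * star V * P)).trace := by simp only [mul_assoc]
      _ = ((X * star V * P) * V).trace := trace_mul_comm _ _
      _ = _ := by simp only [mul_assoc]
  have hYP1 : (V * X⁻¹ * star V * (star V * P * V)).trace
      = (X⁻¹ * (star V * (star V * P * V) * V)).trace := by
    calc (V * X⁻¹ * star V * (star V * P * V)).trace
        = (V * (X⁻¹ * star V * (star V * P * V))).trace := by simp only [mul_assoc]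
      _ = ((X⁻¹ * star V * (star V * P * V)) * V).trace := trace_mul_comm _ _
      _ = _ := by simp only [mul_assoc]
  have hs1 : (X * P).trace + (X * (star V * P * V)).trace = 2 * B.trace := by
    rw [← htr1, hAd, mul_smul_comm, mul_add, trace_smul, trace_add, smul_eq_mul]; ring
  have hs2 : (X⁻¹ * (star V * P * V)).trace + (X⁻¹ * (star V * (star V * P * V) * V)).trace
      = 2 * B.trace := by
    rw [← htr2, hAd, mul_smul_comm, smul_mul_assoc, mul_smul_comm, mul_add, add_mul, mul_add,
      trace_smul, trace_add, smul_eq_mul]; ring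
  have hsum : ((X * P).trace + (X⁻¹ * (star V * P * V)).trace - 2 * Q.trace)
      + ((V * X * star V * P).trace + (V * X⁻¹ * star V * (star V * P * V)).trace
          - 2 * Q.trace) = 0 := by
    rw [hYP, hYP1, ← hBtr]
    linear_combination hs1 + hs2
  obtain ⟨z1, z2⟩ := (add_eq_zero_iff_of_nonneg hf hg).1 hsum
  have hXPX := hf0 z1
  have hYPY := hg0 z2
  have hXP1X : X * (star V * P * V) * X = star V * (star V * P * V) * V := by
    calc X * (star V * P * V) * X
        = (star V * V) * X * (star V * P * V) * X * (star V * V) := by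
          rw [hV, one_mul, mul_one]
      _ = star V * (V * X * star V * P * (V * X * star V)) * V := by simp only [mul_assoc]
      _ = _ := by rw [hYPY]
  have hX1 : X⁻¹ * (star V * P * V) * X⁻¹ = P := by
    rw [← hXPX]
    calc X⁻¹ * (X * P * X) * X⁻¹ = (X⁻¹ * X) * P * (X * X⁻¹) := by simp only [mul_assoc]
      _ = P := by rw [hXi, hXi', one_mul, mul_one]
  obtain ⟨S1, hS1, hS1S1⟩ : ∃ S1 : Matrix n n ℂ, S1.PosDef ∧ S1 * S1 = star V * P * V :=
    ⟨_, sqrt_spec hP1⟩
  have hXs := star_of_posDef hX
  have hXis : star X⁻¹ = X⁻¹ := star_of_posDef hX.inv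
  have hdelta : S1 * (X - X⁻¹) = 0 := by
    have e : star (S1 * (X - X⁻¹)) * (S1 * (X - X⁻¹))
        = (X - X⁻¹) * (star V * P * V) * (X - X⁻¹) := by
      rw [star_mul, star_of_posDef hS1, star_sub, hXs, hXis]
      calc (X - X⁻¹) * S1 * (S1 * (X - X⁻¹))
          = (X - X⁻¹) * (S1 * S1) * (X - X⁻¹) := by
            simp only [mul_assoc]
        _ = _ := by rw [hS1S1]
    have e2 : (X - X⁻¹) * (star V * P * V) * (X - X⁻¹)
        = X * (star V * P * V) * X - X * (star V * P * V) * X⁻¹ - X⁻¹ * (star V * P * V) * X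
          + X⁻¹ * (star V * P * V) * X⁻¹ := by
      simp only [sub_mul, mul_sub]; abel
    have e3 : (X * (star V * P * V) * X⁻¹).trace = P.trace := by
      rw [trace_mul_comm, ← mul_assoc, hXi', one_mul, trace_conj hV']
    have e4 : (X⁻¹ * (star V * P * V) * X).trace = P.trace := by
      rw [trace_mul_comm, ← mul_assoc, hXi, one_mul, trace_conj hV']
    have e5 : (star (S1 * (X - X⁻¹)) * (S1 * (X - X⁻¹))).trace = 0 := by
      rw [e, e2, hXP1X, hX1, trace_add, trace_sub, trace_sub, trace_conj hV', trace_conj hV',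
        e3, e4]
      ring
    exact trace_conjTranspose_mul_self_eq_zero_iff.1 e5
  have hXX : X - X⁻¹ = 0 := by
    calc X - X⁻¹ = ((S1)⁻¹ * S1) * (X - X⁻¹) := by
          rw [nonsing_inv_mul _ (det_unit hS1), one_mul]
      _ = 0 := by rw [mul_assoc, hdelta, mul_zero]
  have hXX1 : X * X = 1 := by
    have h1 : X = X⁻¹ := sub_eq_zero.1 hXX
    calc X * X = X * X⁻¹ := by rw [← h1]
      _ = 1 := hXi
  have hXone : X = 1 := by
    have h1 : CFC.sqrt (1 : Matrix n n ℂ) = X := CFC.sqrt_unique hXX1 hX.posSemidef.nonneg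
    have h2 : CFC.sqrt (1 : Matrix n n ℂ) = 1 :=
      CFC.sqrt_unique (one_mul 1) PosSemidef.one.nonneg
    rw [← h1, h2]
  rw [hXone, one_mul, mul_one] at hXPX
  have hcomm : V * P = P * V := by
    calc V * P = V * (star V * P * V) := by rw [← hXPX]
      _ = (V * star V) * P * V := by simp only [mul_assoc]
      _ = P * V := by rw [hV', one_mul]
  refine ⟨?_⟩
  change star T * T = T * star T
  rw [← hsq]
  nth_rw 1 [← hTV]
  nth_rw 1 [← hTV]
  rw [star_mul, star_of_posDef hP]
  calc P * P = P * P * (V * star V) := by rw [hV', mul_one]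
    _ = P * (P * V) * star V := by simp only [mul_assoc]
    _ = P * (V * P) * star V := by rw [hcomm]
    _ = (P * V) * P * star V := by simp only [mul_assoc]
    _ = (V * P) * P * star V := by rw [hcomm]
    _ = V * P * (P * star V) := by simp only [mul_assoc]

theorem commute_of_normal {T : Matrix n n ℂ} (hT : IsUnit T) (h : IsStarNormal T) :
    meanTransform (aluthge T) = aluthge (meanTransform T) := by
  obtain ⟨hV, hV', hTV⟩ := polar_spec hT
  have hP := abs_posDef hT
  have hc : CFC.abs T * T = T * CFC.abs T := CFC.commute_abs_self T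
  have hc2 : CFC.abs T * polarFactor T = polarFactor T * CFC.abs T := by
    rw [hTV]
    unfold polarFactor
    rw [← mul_assoc, hc, mul_assoc, mul_nonsing_inv _ (det_unit hP), mul_one]
  have hmean : meanTransform T = T := by
    unfold meanTransform
    rw [hc2, hTV, ← two_smul ℂ T, smul_smul]
    norm_num
  have hal : aluthge T = T := by
    obtain ⟨hS, hSS⟩ := sqrt_spec hP
    have h1 : CFC.sqrt (CFC.abs T)
        = star (polarFactor T) * CFC.sqrt (CFC.abs T) * polarFactor T := by
      apply CFC.sqrt_unique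
      · calc star (polarFactor T) * CFC.sqrt (CFC.abs T) * polarFactor T
              * (star (polarFactor T) * CFC.sqrt (CFC.abs T) * polarFactor T)
            = star (polarFactor T) * CFC.sqrt (CFC.abs T) * (polarFactor T
              * star (polarFactor T)) * CFC.sqrt (CFC.abs T) * polarFactor T := by
                simp only [mul_assoc]
          _ = star (polarFactor T) * (CFC.sqrt (CFC.abs T) * CFC.sqrt (CFC.abs T))
                * polarFactor T := by rw [hV', mul_one]; simp only [mul_assoc]
          _ = star (polarFactor T) * (CFC.abs T * polarFactor T) := by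
                rw [hSS]; simp only [mul_assoc]
          _ = (star (polarFactor T) * polarFactor T) * CFC.abs T := by
                rw [hc2]; simp only [mul_assoc]
          _ = CFC.abs T := by rw [hV, one_mul]
      · exact (conj_posDef hS hV).posSemidef.nonneg
    have h2 : polarFactor T * CFC.sqrt (CFC.abs T) = CFC.sqrt (CFC.abs T) * polarFactor T := by
      nth_rw 1 [h1]
      calc polarFactor T * (star (polarFactor T) * CFC.sqrt (CFC.abs T) * polarFactor T)
          = (polarFactor T * star (polarFactor T)) * CFC.sqrt (CFC.abs T) * polarFactor T := by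
            simp only [mul_assoc]
        _ = _ := by rw [hV', one_mul]
    unfold aluthge
    rw [← h2, mul_assoc, hSS, hTV]
  rw [hal, hmean, hal]

/-- For an invertible complex matrix `T` the transforms `Δ(T)` and `T̂` are invertible, and the mean
transform of `Δ(T)` equals the Aluthge transform of `T̂` if and only if `T` is normal. -/
theorem result {n : Type*} [Fintype n] [DecidableEq n] (T : Matrix n n ℂ) (hT : IsUnit T) :
    IsUnit (aluthge T) ∧ IsUnit (meanTransform T) ∧
      (meanTransform (aluthge T) = aluthge (meanTransform T) ↔ IsStarNormal T) :=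
  ⟨aluthge_isUnit hT, mean_isUnit hT, normal_of_commute hT, commute_of_normal hT⟩

end Pool.Agent.Results.MP_15115f_an.InvertibleMatrices
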