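import Mathlib
import Pool.Agent.Helper951_ma.InvNec
import Pool.Agent.Helper951_ma.InvSuf
import Pool.Agent.Helper951_ma.ShiftNec
import Pool.Agent.Helper951_ma.ShiftSuf
import Pool.Agent.Helper951_ma.RankOne
import Pool.Agent.Helper951_ma.Dim2

/-!
# MP_15115f_an: operators whose mean transform and Aluthge transform commute

`Commutes T` (from `Pool.Agent.Helper951_ma.Defs`) is the equation of Q1 (the mean transform of the
Aluthge transform of `T` equals the Aluthge transform of the mean transform of `T`), written out
with the polar decompositions and the positive square roots.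

* An invertible operator of a finite-dimensional Hilbert space belongs to the class iff it is
  normal.
* Every operator of rank at most one, on every Hilbert space, belongs to the class; hence on a
  two-dimensional space the class is exactly: normal or not invertible.
* A weighted shift `T e_i = w_i e_{σ i}` with positive weights along an injective self-map `σ` of
  the index set of a Hilbert basis (unilateral and bilateral shifts included) belongs to the class
  iff its weights are geometric along the orbits: `w_{σ i}^2 = w_i w_{σ σ i}`.
-/

namespace Pool.Agent.Results.MP_15115f_an.MeanAluthge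

open Pool.Agent.Helper951_ma

theorem result :
    (∀ (H : Type) [NormedAddCommGroup H] [InnerProductSpace ℂ H] [CompleteSpace H]
      [FiniteDimensional ℂ H] (T : H →L[ℂ] H), IsUnit T →
        (Commutes T ↔ IsStarNormal T)) ∧
    (∀ (H : Type) [NormedAddCommGroup H] [InnerProductSpace ℂ H] [CompleteSpace H]
      (a b : H) (T : H →L[ℂ] H), (∀ x, T x = (inner ℂ b x : ℂ) • a) → Commutes T) ∧
    (∀ (H : Type) [NormedAddCommGroup H] [InnerProductSpace ℂ H] [CompleteSpace H]
      (T : H →L[ℂ] H), Module.finrank ℂ H = 2 →
        (Commutes T ↔ IsStarNormal T ∨ ¬ IsUnit T)) ∧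
    (∀ (H : Type) [NormedAddCommGroup H] [InnerProductSpace ℂ H] [CompleteSpace H]
      (ι : Type) (e : HilbertBasis ι ℂ H) (σ : ι → ι) (w : ι → ℝ) (T : H →L[ℂ] H),
        Function.Injective σ → (∀ i, 0 < w i) → (∀ i, T (e i) = (w i : ℂ) • e (σ i)) →
        (Commutes T ↔ ∀ i, w (σ i) ^ 2 = w i * w (σ (σ i)))) := by
  refine ⟨?_, ?_, ?_, ?_⟩
  · intro H _ _ _ _ T hT
    exact ⟨inv_nec T hT, inv_suf T hT⟩
  · intro H _ _ _ a b T hT
    exact rank_one a b T hT
  · intro H _ _ _ T hH
    have : FiniteDimensional ℂ H := Module.finite_of_finrank_pos (by omega)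
    by_cases hT : IsUnit T
    · constructor
      · intro h
        exact Or.inl (inv_nec T hT h)
      · rintro (h | h)
        · exact inv_suf T hT h
        · exact absurd hT h
    · constructor
      · intro _
        exact Or.inr hT
      · intro _
        obtain ⟨a, b, hab⟩ := dim_two hH T hT
        exact rank_one a b T hab
  · intro H _ _ _ ι e σ w T hσ hw hT
    exact ⟨fun h i => shift_nec e σ hσ w hw T hT h i, fun h => shift_suf e σ hσ w hw T hT h⟩

end Pool.Agent.Results.MP_15115f_an.MeanAluthge
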